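import Pool.Agent.Helper84_TMP.Stmt
import Pool.Agent.Helper43_TMP.Dg
import Pool.Agent.Helper43_TMP.J

/-!
# IAN: the Iwahori orbit of an antidominant point (squad TMP, helper99)
-/

set_option autoImplicit false

open scoped BigOperators

namespace Pool.Agent.TMP.H99

open Pool.Agent.DEN Pool.Agent.DEN.H22 Pool.Agent.TMP Pool.Agent.TMP.H43

section
variable {K : Type} [Field K]

theorem one_not_mem : (1 : FF K) ∉ Bd K (-1) := by
  intro h
  rw [H99.mem_Bd] at h
  have h1 := h 0 (by norm_num)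
  rw [HahnSeries.coeff_one] at h1
  simp at h1

/-- `1 - x` is a unit of `𝒪` for `x ∈ t⁻¹ 𝒪`. -/
theorem unit_one_sub {x : FF K} (hx : x ∈ Bd K (-1)) :
    1 - x ≠ 0 ∧ (1 - x) ∈ Bd K 0 ∧ (1 - x)⁻¹ ∈ Bd K 0 := by
  have h1 : (1 - x) ∈ Bd K 0 := bd_sub bd_one (bd_mono (by norm_num) hx)
  have h2 : (1 - x) ∉ Bd K (0 - 1) := by
    intro h
    have h3 : (1 - x) + x ∈ Bd K (-1) := bd_add h hx
    rw [sub_add_cancel] at h3
    exact one_not_mem h3
  refine ⟨?_, h1, ?_⟩
  · intro h
    rw [h] at h2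
    exact h2 (bd_zero _)
  · have := inv_mem_Bd h1 h2
    rwa [neg_zero] at this

end

section
variable {r : ℕ} {C : Matrix (Fin r) (Fin r) ℤ} {K : Type} [Field K]

theorem smul_mul' (g h : grp C K) (x : XX C K) : (g * h) • x = g • h • x := mul_smul g h x

/-- The set `U(𝒪) t^l o`. -/
def YY (hC : SimplyLaced C) (K : Type) [Field K] (l : Fin r → ℤ) : Set (XX C K) :=
  {y | ∃ u ∈ UO hC K, y = u • tp hC K l}

variable (hC : SimplyLaced C) {l : Fin r → ℤ}

theorem mem_UO {β : Rt C} (hβ : β.Pos) {a : FF K} (ha : a ∈ Bd K 0) : xg hC β a ∈ UO hC K :=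
  Subgroup.subset_closure ⟨β, a, hβ, ha, rfl⟩

theorem UO_YY {u : grp C K} (hu : u ∈ UO hC K) {y : XX C K} (hy : y ∈ YY hC K l) :
    u • y ∈ YY hC K l := by
  obtain ⟨v, hv, rfl⟩ := hy
  exact ⟨u * v, mul_mem hu hv, (smul_mul' _ _ _).symm⟩

theorem zpow_mem_Bd {e : FF K} (h1 : e ∈ Bd K 0) (h2 : e⁻¹ ∈ Bd K 0) (n : ℤ) :
    e ^ n ∈ Bd K 0 := by
  have aux : ∀ (x : FF K), x ∈ Bd K 0 → ∀ k : ℕ, x ^ k ∈ Bd K 0 := by
    intro x hx k
    have := bd_npow hx k
    rwa [mul_zero] at this
  obtain ⟨k, rfl | rfl⟩ := n.eq_nat_or_neg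
  · rw [zpow_natCast]
    exact aux e h1 k
  · rw [zpow_neg, zpow_natCast, ← inv_pow]
    exact aux _ h2 k

/-- Diagonal elements with unit entries normalise `U(𝒪)`. -/
theorem hg_UO (β : Rt C) {e : FF K} (h0 : e ≠ 0) (h1 : e ∈ Bd K 0) (h2 : e⁻¹ ∈ Bd K 0)
    {u : grp C K} (hu : u ∈ UO hC K) : hg hC β e * u * (hg hC β e)⁻¹ ∈ UO hC K := by
  induction hu using Subgroup.closure_induction with
  | mem x hx =>
    obtain ⟨γ, a, h3, h4, rfl⟩ := hx
    rw [(isDiag_hg hC β h0).conj hC (isCh_pow β.1 h0) γ a]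
    refine mem_UO hC h3 ?_
    have := H99.bd_mul (zpow_mem_Bd h1 h2 (ip C β.1 γ.1)) h4
    rwa [add_zero] at this
  | one => rw [mul_one, mul_inv_cancel]; exact one_mem _
  | mul x y _ _ hx hy =>
    have := mul_mem hx hy
    have e1 : hg hC β e * x * (hg hC β e)⁻¹ * (hg hC β e * y * (hg hC β e)⁻¹) =
        hg hC β e * (x * y) * (hg hC β e)⁻¹ := by group
    rwa [e1] at this
  | inv x _ hx =>
    have := inv_mem hx
    have e1 : (hg hC β e * x * (hg hC β e)⁻¹)⁻¹ = hg hC β e * x⁻¹ * (hg hC β e)⁻¹ := by group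
    rwa [e1] at this

/-- Diagonal elements with unit entries fix the points `t^l o`. -/
theorem hg_tp (β : Rt C) {e : FF K} (h0 : e ≠ 0) (h1 : e ∈ Bd K 0) (h2 : e⁻¹ ∈ Bd K 0)
    (l : Fin r → ℤ) : hg hC β e • tp hC K l = tp hC K l := by
  have hk : hg hC β e ∈ maxK C K := (H22.hMax r C hC K).2.2.1 β e h0 h1 h2
  have hc : hg hC β e * tg hC K l = tg hC K l * hg hC β e := by
    refine grp_ext fun v => ?_
    rw [mul_app, mul_app, isDiag_hg hC β h0, isDiag_hg hC β h0, isTor_tg hC l, isTor_tg hC l]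
    refine Prod.ext rfl (funext fun γ => ?_)
    show e ^ ip C β.1 γ.1 * (tt K ^ ip C γ.1 l * v.2 γ) =
      tt K ^ ip C γ.1 l * (e ^ ip C β.1 γ.1 * v.2 γ)
    ring
  rw [← tp_smul hC l, ← smul_mul', hc, smul_mul', (mem_maxK_iff _).mp hk]

theorem hg_YY (β : Rt C) {e : FF K} (h0 : e ≠ 0) (h1 : e ∈ Bd K 0) (h2 : e⁻¹ ∈ Bd K 0)
    {y : XX C K} (hy : y ∈ YY hC K l) : hg hC β e • y ∈ YY hC K l := by
  obtain ⟨u, hu, rfl⟩ := hy
  refine ⟨_, hg_UO hC β h0 h1 h2 hu, ?_⟩
  have e1 : hg hC β e • u • tp hC K l =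
      (hg hC β e * u * (hg hC β e)⁻¹) • hg hC β e • tp hC K l := by
    rw [← smul_mul', ← smul_mul']
    congr 1
    group
  rw [e1, hg_tp hC β h0 h1 h2]

theorem ip_anti (hl : IsAnti C l) {β : Rt C} (hβ : β.Pos) : ip C β.1 l ≤ 0 := by
  have e : β.1 = ∑ i, β.1 i • al i := by
    funext j
    rw [Finset.sum_apply]
    simp [al, Pi.single_apply]
  have h2 : ip C β.1 l = ∑ i, β.1 i * ip C (al i) l := by
    conv_lhs => rw [e]
    have : ∀ s : Finset (Fin r), ip C (∑ i ∈ s, β.1 i • al i) l =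
        ∑ i ∈ s, β.1 i * ip C (al i) l := by
      intro s
      classical
      induction s using Finset.induction_on with
      | empty => rw [Finset.sum_empty, Finset.sum_empty, ip_zero_left]
      | insert i s hi ih =>
        rw [Finset.sum_insert hi, Finset.sum_insert hi, ip_add_left, ip_smul_left, ih]
    exact this _
  rw [h2]
  exact Finset.sum_nonpos fun i _ => mul_nonpos_of_nonneg_of_nonpos (hβ i) (hl i)

theorem neg_YY (hS : SltStmt) (hl : IsAnti C l) : ∀ (n : ℕ) (β : Rt C), β.Pos → ht β ≤ n →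
    ∀ u ∈ UO hC K, ∀ c ∈ Bd K (-1), xg hC β.neg c • u • tp hC K l ∈ YY hC K l := by
  intro n
  induction n with
  | zero =>
    intro β hβ hn
    have := (pos_iff hC β).mp hβ
    exfalso
    push_cast at hn
    omega
  | succ n ih =>
    intro β hβ hn u hu
    have key : ∀ γ : Rt C, γ.Pos → ∀ a ∈ Bd K 0, ∀ v : grp C K,
        (∀ c ∈ Bd K (-1), xg hC β.neg c • v • tp hC K l ∈ YY hC K l) →
        ∀ c ∈ Bd K (-1), xg hC β.neg c • (xg hC γ a * v) • tp hC K l ∈ YY hC K l := by
      intro γ hγ a ha v hv c hc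
      rw [smul_mul']
      by_cases h0 : 0 ≤ ip C β.neg.1 γ.1
      · have e : xg hC β.neg c * xg hC γ a = xg hC γ a * xg hC β.neg c :=
          Subtype.ext (relA r C hC (FF K) β.neg γ c a h0)
        rw [← smul_mul', e, smul_mul']
        exact UO_YY hC (mem_UO hC hγ ha) (hv c hc)
      · by_cases h1 : ip C β.neg.1 γ.1 = -1
        · have hr : ip C (β.neg.1 + γ.1) (β.neg.1 + γ.1) = 2 :=
            hC.ip_add_self (β := β.neg) (γ := γ) h1
          have e : xg hC β.neg c * xg hC γ a = xg hC γ a *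
              xg hC ⟨_, hr⟩ (((eps C β.neg.1 γ.1 : ℤ) : FF K) * c * a) * xg hC β.neg c :=
            Subtype.ext (relB r C hC (FF K) β.neg γ ⟨_, hr⟩ c a h1 rfl)
          rw [← smul_mul', e, smul_mul', smul_mul']
          refine UO_YY hC (mem_UO hC hγ ha) ?_
          have hm : (((eps C β.neg.1 γ.1 : ℤ) : FF K) * c * a) ∈ Bd K (-1) := by
            have h2 := H99.bd_mul (H99.bd_mul (bd_int (K := K) (eps C β.neg.1 γ.1)) hc) ha
            exact bd_mono (by norm_num) h2
          have hY := hv c hc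
          rcases (H22.hRS r C hC).1 ⟨_, hr⟩ with hp | hp
          · exact UO_YY hC (mem_UO hC hp (bd_mono (by norm_num) hm)) hY
          · obtain ⟨w, hw, hw2⟩ := hY
            rw [hw2]
            have hnn : (⟨_, hr⟩ : Rt C) = (Rt.neg ⟨_, hr⟩).neg :=
              Subtype.ext (by show _ = - - _; rw [neg_neg])
            rw [hnn]
            refine ih _ hp ?_ w hw _ hm
            have h3 : ht (Rt.neg (⟨_, hr⟩ : Rt C)) = ht β - ht γ := by
              simp only [ht, Rt.neg_val, Pi.neg_apply, Pi.add_apply, Finset.sum_neg_distrib,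
                Finset.sum_add_distrib]
              ring
            have h4 := (pos_iff hC γ).mp hγ
            push_cast at hn
            omega
        · have h2 : γ = β := by
            rcases cases5 hC β γ.2 with h | h | h | h | h
            · exact Subtype.ext h
            · exfalso
              apply h0
              rw [h, Rt.neg_val, ip_neg_left, ip_neg_right, β.2]
              norm_num
            · exfalso
              apply h1
              rw [Rt.neg_val, ip_neg_left, h]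
            · exfalso
              apply h0
              rw [Rt.neg_val, ip_neg_left, h]
              norm_num
            · exfalso
              apply h0
              rw [Rt.neg_val, ip_neg_left, h]
              norm_num
          subst h2
          have hca : c * a ∈ Bd K (-1) := by
            have := H99.bd_mul hc ha
            rwa [add_zero] at this
          obtain ⟨u0, u1, u2⟩ := unit_one_sub hca
          have e := hS r C hC K γ c a u0
          rw [← smul_mul', e, smul_mul', smul_mul']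
          refine UO_YY hC (mem_UO hC hγ ?_) ?_
          · rw [div_eq_mul_inv]
            have := H99.bd_mul ha u2
            rwa [add_zero] at this
          · refine hg_YY hC γ (inv_ne_zero u0) u2 (by rwa [inv_inv]) ?_
            refine hv _ ?_
            rw [div_eq_mul_inv]
            have := H99.bd_mul hc u2
            rwa [add_zero] at this
    induction hu using Subgroup.closure_induction_left with
    | one =>
      intro c hc
      rw [one_smul]
      refine ⟨1, one_mem _, ?_⟩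
      rw [one_smul]
      refine xg_tp hC l β.neg (bd_mono ?_ hc)
      rw [Rt.neg_val, ip_neg_left]
      have := ip_anti hl hβ
      omega
    | mul_left x hx v _ hv =>
      obtain ⟨γ, a, hγ, ha, rfl⟩ := hx
      exact key γ hγ a ha v hv
    | inv_mul_cancel x hx v _ hv =>
      obtain ⟨γ, a, hγ, ha, rfl⟩ := hx
      rw [xg_inv]
      exact key γ hγ (-a) (bd_neg ha) v hv

theorem gen_YY (hS : SltStmt) (hl : IsAnti C l) {β : Rt C} {a : FF K}
    (h : (β.Pos ∧ a ∈ Bd K 0) ∨ (β.neg.Pos ∧ a ∈ Bd K (-1))) {y : XX C K}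
    (hy : y ∈ YY hC K l) : xg hC β a • y ∈ YY hC K l := by
  rcases h with ⟨h1, h2⟩ | ⟨h1, h2⟩
  · exact UO_YY hC (mem_UO hC h1 h2) hy
  · obtain ⟨u, hu, rfl⟩ := hy
    have hnn : β = β.neg.neg := Subtype.ext (by show _ = - - _; rw [neg_neg])
    rw [hnn]
    exact neg_YY hC hS hl (ht β.neg).toNat β.neg h1 (Int.self_le_toNat _) u hu a h2

end

/-- IAN. -/
theorem ian (hS : SltStmt) : IanStmt := by
  intro r C hC K _ l hl g hg
  have main : ∀ y ∈ YY hC K l, g • y ∈ YY hC K l := by
    have : (∀ y ∈ YY hC K l, g • y ∈ YY hC K l) ∧ (∀ y ∈ YY hC K l, g⁻¹ • y ∈ YY hC K l) := by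
      induction hg using Subgroup.closure_induction with
      | mem x hx =>
        obtain ⟨β, a, h, rfl⟩ := hx
        refine ⟨fun y hy => gen_YY hC hS hl h hy, fun y hy => ?_⟩
        rw [xg_inv]
        refine gen_YY hC hS hl ?_ hy
        rcases h with ⟨h1, h2⟩ | ⟨h1, h2⟩
        · exact Or.inl ⟨h1, bd_neg h2⟩
        · exact Or.inr ⟨h1, bd_neg h2⟩
      | one => refine ⟨fun y hy => ?_, fun y hy => ?_⟩ <;> simpa using hy
      | mul x y _ _ hx hy =>
        refine ⟨fun z hz => ?_, fun z hz => ?_⟩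
        · rw [smul_mul']; exact hx.1 _ (hy.1 _ hz)
        · rw [mul_inv_rev, smul_mul']; exact hy.2 _ (hx.2 _ hz)
      | inv x _ hx =>
        refine ⟨hx.2, fun z hz => ?_⟩
        rw [inv_inv]
        exact hx.1 z hz
    exact this.1
  exact main _ ⟨1, one_mem _, (one_smul _ _).symm⟩

end Pool.Agent.TMP.H99
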