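import Pool.Agent.Helper84_TMP.Stmt
import Pool.Agent.Helper43_TMP.J

/-!
# VIS: the groups `V_i`, `I_i`, `I` (squad TMP, helper99)
-/

set_option autoImplicit false

open scoped BigOperators

namespace Pool.Agent.TMP.H99

open Pool.Agent.DEN Pool.Agent.DEN.H22 Pool.Agent.TMP Pool.Agent.TMP.H43

section
variable {r : ℕ} {C : Matrix (Fin r) (Fin r) ℤ} {K : Type} [Field K]

/-- `β ≠ ± α_i`, and the level is `0` for positive `β`, `-1` for negative `β`. -/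
def Adm (hC : SimplyLaced C) (i : Fin r) (β : Rt C) (m : ℤ) : Prop :=
  (β.Pos ∧ β ≠ hC.sr i ∧ m = 0) ∨ (β.neg.Pos ∧ β.neg ≠ hC.sr i ∧ m = -1)

theorem adm_refl (hC : SimplyLaced C) {i : Fin r} {β γ : Rt C} {m : ℤ} (h : Adm hC i β m)
    (hγ : γ.1 = β.1 - ip C β.1 (al i) • al i) : Adm hC i γ m := by
  rcases h with ⟨h1, h2, h3⟩ | ⟨h1, h2, h3⟩
  · have := (hRD r C hC).2.1 i β γ h1 h2 hγ
    exact Or.inl ⟨this.1, this.2, h3⟩
  · have := (hRD r C hC).2.1 i β.neg γ.neg h1 h2 (by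
      rw [Rt.neg_val, Rt.neg_val, hγ, ip_neg_left, neg_smul]
      abel)
    exact Or.inr ⟨this.1, this.2, h3⟩

theorem adm_ip (hC : SimplyLaced C) {i : Fin r} {β : Rt C} {m : ℤ} (h : Adm hC i β m) :
    ip C (al i) β.1 = 1 ∨ ip C (al i) β.1 = 0 ∨ ip C (al i) β.1 = -1 := by
  rcases h with ⟨h1, h2, -⟩ | ⟨h1, h2, -⟩
  · have a1 := H67.ne_two hC i (β := β) (fun h => h2 (Subtype.ext (by rw [h, hC.sr_val])))
    have a2 := H67.ne_neg hC i h1
    rcases H67.ip_cases hC i β with h | h | h | h | h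
    · exact absurd h a1
    · exact Or.inl h
    · exact Or.inr (Or.inl h)
    · exact Or.inr (Or.inr h)
    · exact absurd h a2
  · have a1 := H67.ne_two hC i (β := β.neg) (fun h => h2 (Subtype.ext (by rw [h, hC.sr_val])))
    have a2 := H67.ne_neg hC i h1
    rw [Rt.neg_val, ip_neg_right] at a1 a2
    rcases H67.ip_cases hC i β with h | h | h | h | h
    · exact absurd (by rw [h]) a2
    · exact Or.inl h
    · exact Or.inr (Or.inl h)
    · exact Or.inr (Or.inr h)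
    · exact absurd (by rw [h]; norm_num) a1

/-- Conjugation by a root element for `± α_i`. -/
theorem conj_xx (hC : SimplyLaced C) {i : Fin r} {γ : Rt C}
    (hγ : γ = hC.sr i ∨ γ = (hC.sr i).neg) {β : Rt C} {m : ℤ} (hβ : Adm hC i β m)
    (a b : FF K) : ∃ (δ : Rt C) (e : ℤ), Adm hC i δ m ∧
      xg hC γ a * xg hC β b * (xg hC γ a)⁻¹ = xg hC β b * xg hC δ ((e : FF K) * a * b) := by
  by_cases h0 : 0 ≤ ip C γ.1 β.1
  · refine ⟨β, 0, hβ, ?_⟩
    rw [xg_comm hC γ β a b h0, Int.cast_zero, zero_mul, zero_mul, xg_zero, mul_one]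
  · have h1 := adm_ip hC hβ
    have h2 : ip C γ.1 β.1 = -1 := by
      rcases hγ with rfl | rfl
      · rw [hC.sr_val] at h0 ⊢
        omega
      · rw [Rt.neg_val, ip_neg_left, hC.sr_val] at h0 ⊢
        omega
    have hr : ip C (γ.1 + β.1) (γ.1 + β.1) = 2 := hC.ip_add_self (β := γ) (γ := β) h2
    refine ⟨⟨_, hr⟩, eps C γ.1 β.1, adm_refl hC hβ ?_, xg_conj hC γ β ⟨_, hr⟩ a b h2 rfl⟩
    rcases hγ with rfl | rfl
    · rw [hC.sr_val] at h2
      show (hC.sr i).1 + β.1 = _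
      rw [hC.ip_comm, h2, hC.sr_val, neg_smul, one_smul, sub_neg_eq_add, add_comm]
    · rw [Rt.neg_val, ip_neg_left, hC.sr_val] at h2
      show (hC.sr i).neg.1 + β.1 = _
      have h3 : ip C (al i) β.1 = 1 := by omega
      rw [hC.ip_comm, h3, Rt.neg_val, hC.sr_val, one_smul]
      abel

/-- Conjugation by `w_{α_i}(± 1)`. -/
theorem conj_ww (hC : SimplyLaced C) {i : Fin r} {c : FF K} (hc : c = 1 ∨ c = -1) {β : Rt C}
    {m : ℤ} (hβ : Adm hC i β m) (b : FF K) : ∃ (δ : Rt C) (e : ℤ), Adm hC i δ m ∧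
      wg hC (hC.sr i) c * xg hC β b * (wg hC (hC.sr i) c)⁻¹ = xg hC δ ((e : FF K) * b) := by
  have hc0 : c ≠ 0 := by
    rcases hc with rfl | rfl
    · exact one_ne_zero
    · exact neg_ne_zero.mpr one_ne_zero
  obtain ⟨e0, he0⟩ : ∃ e0 : ℤ, c = (e0 : FF K) := by
    rcases hc with rfl | rfl
    · exact ⟨1, by simp⟩
    · exact ⟨-1, by simp⟩
  have hci : c⁻¹ = c := by
    rcases hc with rfl | rfl
    · exact inv_one
    · rw [inv_neg, inv_one]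
  obtain ⟨-, -, r1, r2, r3⟩ := relC r C hC K (hC.sr i) c hc0 b
  rcases adm_ip hC hβ with h | h | h
  · have hr : ip C (β.1 - al i) (β.1 - al i) = 2 := by
      have := hC.ip_sub_self (β := β) (γ := hC.sr i) (by rw [hC.sr_val, hC.ip_comm]; exact h)
      exact this
    refine ⟨⟨_, hr⟩, e0 * eps C (hC.sr i).1 β.1, adm_refl hC hβ ?_, ?_⟩
    · show β.1 - al i = _
      rw [hC.ip_comm, h, one_smul]
    · rw [r1 β ⟨_, hr⟩ h rfl, hci, he0]
      push_cast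
      rfl
  · refine ⟨β, 1, hβ, ?_⟩
    rw [r3 β h, Int.cast_one, one_mul]
  · have hr : ip C (β.1 + al i) (β.1 + al i) = 2 := by
      have := hC.ip_add_self (β := β) (γ := hC.sr i) (by rw [hC.sr_val, hC.ip_comm]; exact h)
      exact this
    refine ⟨⟨_, hr⟩, e0 * eps C (hC.sr i).1 β.1, adm_refl hC hβ ?_, ?_⟩
    · show β.1 + al i = _
      rw [hC.ip_comm, h, neg_smul, one_smul, sub_neg_eq_add]
    · rw [r2 β ⟨_, hr⟩ h rfl, he0]
      push_cast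
      rfl

theorem wi_inv (hC : SimplyLaced C) (i : Fin r) :
    (wi hC K i)⁻¹ = wg hC (hC.sr i) (-1 : FF K) := by
  unfold wi wg
  rw [mul_inv_rev, mul_inv_rev, xg_inv, xg_inv, inv_neg, inv_one, mul_assoc]

theorem mem_Vi (hC : SimplyLaced C) {i : Fin r} {β : Rt C} {m : ℤ} (hβ : Adm hC i β m)
    {a : FF K} (ha : a ∈ Bd K m) : xg hC β a ∈ Vi hC K i := by
  rcases hβ with ⟨h1, h2, rfl⟩ | ⟨h1, h2, rfl⟩
  · exact Subgroup.subset_closure ⟨β, a, Or.inl ⟨h1, h2, ha⟩, rfl⟩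
  · exact Subgroup.subset_closure ⟨β, a, Or.inr ⟨h1, h2, ha⟩, rfl⟩

theorem int_mul_Bd (e : ℤ) {m : ℤ} {a : FF K} (ha : a ∈ Bd K m) : (e : FF K) * a ∈ Bd K m := by
  have := H99.bd_mul (bd_int (K := K) e) ha
  rwa [zero_add] at this

/-- Conjugation maps `V_i` into `V_i` if it does so for the generators. -/
theorem conj_Vi (hC : SimplyLaced C) {i : Fin r} (w : grp C K)
    (h : ∀ (β : Rt C) (m : ℤ) (a : FF K), Adm hC i β m → a ∈ Bd K m →
      w * xg hC β a * w⁻¹ ∈ Vi hC K i) : ∀ v ∈ Vi hC K i, w * v * w⁻¹ ∈ Vi hC K i := by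
  refine H67.conj_closure _ _ _ ?_
  rintro s ⟨β, a, h1 | h1, rfl⟩
  · exact h β 0 a (Or.inl ⟨h1.1, h1.2.1, rfl⟩) h1.2.2
  · exact h β (-1) a (Or.inr ⟨h1.1, h1.2.1, rfl⟩) h1.2.2

theorem xx_Vi (hC : SimplyLaced C) {i : Fin r} {γ : Rt C}
    (hγ : γ = hC.sr i ∨ γ = (hC.sr i).neg) {a : FF K} (ha : a ∈ Bd K 0) :
    ∀ v ∈ Vi hC K i, xg hC γ a * v * (xg hC γ a)⁻¹ ∈ Vi hC K i := by
  refine conj_Vi hC _ ?_
  intro β m b hβ hb
  obtain ⟨δ, e, h1, h2⟩ := conj_xx hC hγ hβ a b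
  rw [h2]
  refine mul_mem (mem_Vi hC hβ hb) (mem_Vi hC h1 ?_)
  have := H99.bd_mul (int_mul_Bd e ha) hb
  rwa [zero_add] at this

theorem ww_Vi (hC : SimplyLaced C) {i : Fin r} {c : FF K} (hc : c = 1 ∨ c = -1) :
    ∀ v ∈ Vi hC K i, wg hC (hC.sr i) c * v * (wg hC (hC.sr i) c)⁻¹ ∈ Vi hC K i := by
  refine conj_Vi hC _ ?_
  intro β m b hβ hb
  obtain ⟨δ, e, h1, h2⟩ := conj_ww hC hc hβ b
  rw [h2]
  exact mem_Vi hC h1 (int_mul_Bd e hb)

theorem adm_zero (hC : SimplyLaced C) {i : Fin r} {β : Rt C} (h : Adm hC i β 0) :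
    β.Pos ∧ β.1 ≠ al i := by
  rcases h with ⟨h1, h2, -⟩ | ⟨-, -, h3⟩
  · exact ⟨h1, fun h => h2 (Subtype.ext (by rw [h, hC.sr_val]))⟩
  · norm_num at h3

theorem pos_adm (hC : SimplyLaced C) {i : Fin r} {β : Rt C} (h1 : β.Pos) (h2 : β.1 ≠ al i) :
    Adm hC i β 0 := Or.inl ⟨h1, fun h => h2 (by rw [h, hC.sr_val]), rfl⟩

theorem xx_Un (hC : SimplyLaced C) {i : Fin r} {γ : Rt C}
    (hγ : γ = hC.sr i ∨ γ = (hC.sr i).neg) (a : FF K) :
    ∀ v ∈ Un C K i, xg hC γ a * v * (xg hC γ a)⁻¹ ∈ Un C K i := by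
  refine H67.conj_closure _ _ _ ?_
  rintro s ⟨β, b, h1, h2, h3⟩
  rw [eq_xg hC β b s h3]
  obtain ⟨δ, e, h4, h5⟩ := conj_xx hC hγ (pos_adm hC h1 h2) a b
  rw [h5]
  exact mul_mem (H67.mem_Un hC h1 h2 _) (H67.mem_Un hC (adm_zero hC h4).1 (adm_zero hC h4).2 _)

theorem ww_Un (hC : SimplyLaced C) {i : Fin r} {c : FF K} (hc : c = 1 ∨ c = -1) :
    ∀ v ∈ Un C K i, wg hC (hC.sr i) c * v * (wg hC (hC.sr i) c)⁻¹ ∈ Un C K i := by
  refine H67.conj_closure _ _ _ ?_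
  rintro s ⟨β, b, h1, h2, h3⟩
  rw [eq_xg hC β b s h3]
  obtain ⟨δ, e, h4, h5⟩ := conj_ww hC hc (pos_adm hC h1 h2) b
  rw [h5]
  exact H67.mem_Un hC (adm_zero hC h4).1 (adm_zero hC h4).2 _

theorem Vi_le (hC : SimplyLaced C) (i : Fin r) : Vi hC K i ≤ Iw hC K := by
  refine Subgroup.closure_mono ?_
  rintro g ⟨β, a, h | h, rfl⟩
  · exact ⟨β, a, Or.inl ⟨h.1, h.2.2⟩, rfl⟩
  · exact ⟨β, a, Or.inr ⟨h.1, h.2.2⟩, rfl⟩

theorem sr_pos (hC : SimplyLaced C) (i : Fin r) : (hC.sr i).Pos := by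
  intro j
  rw [hC.sr_val]
  unfold al
  by_cases h : j = i
  · subst h; simp
  · simp [h]

theorem Ii_le (hC : SimplyLaced C) (i : Fin r) : Ii hC K i ≤ Iw hC K := by
  refine Subgroup.closure_mono ?_
  rintro g (⟨a, ha, rfl⟩ | ⟨a, ha, rfl⟩)
  · exact ⟨hC.sr i, a, Or.inl ⟨sr_pos hC i, ha⟩, rfl⟩
  · refine ⟨(hC.sr i).neg, a, Or.inr ⟨?_, ha⟩, rfl⟩
    have : (hC.sr i).neg.neg = hC.sr i := Subtype.ext (by rw [Rt.neg_val, Rt.neg_val, neg_neg])
    rw [this]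
    exact sr_pos hC i

theorem Iw_le (hC : SimplyLaced C) : Iw hC K ≤ maxK C K := by
  unfold Iw
  rw [Subgroup.closure_le]
  rintro g ⟨β, a, h | h, rfl⟩
  · exact xg_maxK hC β h.2
  · exact xg_maxK hC β (bd_mono (by norm_num) h.2)

theorem Iw_fac (hC : SimplyLaced C) (i : Fin r) : ∀ g ∈ Iw hC K, ∃ v ∈ Vi hC K i,
    ∃ j ∈ Ii hC K i, g = v * j := by
  intro g hg
  have key : ∀ (β : Rt C) (a : FF K), ((β.Pos ∧ a ∈ Bd K 0) ∨ (β.neg.Pos ∧ a ∈ Bd K (-1))) →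
      ∀ y : grp C K, (∃ v ∈ Vi hC K i, ∃ j ∈ Ii hC K i, y = v * j) →
      ∃ v ∈ Vi hC K i, ∃ j ∈ Ii hC K i, xg hC β a * y = v * j := by
    rintro β a h y ⟨v, hv, j, hj, rfl⟩
    rcases h with ⟨h1, h2⟩ | ⟨h1, h2⟩
    · by_cases h3 : β = hC.sr i
      · refine ⟨_, xx_Vi hC (Or.inl h3) h2 v hv, xg hC β a * j, mul_mem ?_ hj, by group⟩
        rw [h3]
        exact Subgroup.subset_closure (Or.inl ⟨a, h2, rfl⟩)
      · exact ⟨xg hC β a * v, mul_mem (mem_Vi hC (Or.inl ⟨h1, h3, rfl⟩) h2) hv, j, hj, by group⟩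
    · by_cases h3 : β.neg = hC.sr i
      · have h4 : β = (hC.sr i).neg := by
          rw [← h3]
          exact Subtype.ext (by rw [Rt.neg_val, Rt.neg_val, neg_neg])
        refine ⟨_, xx_Vi hC (Or.inr h4) (bd_mono (by norm_num) h2) v hv, xg hC β a * j,
          mul_mem ?_ hj, by group⟩
        rw [h4]
        exact Subgroup.subset_closure (Or.inr ⟨a, h2, rfl⟩)
      · exact ⟨xg hC β a * v, mul_mem (mem_Vi hC (Or.inr ⟨h1, h3, rfl⟩) h2) hv, j, hj, by group⟩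
  induction hg using Subgroup.closure_induction_left with
  | one => exact ⟨1, one_mem _, 1, one_mem _, by group⟩
  | mul_left x hx y _ hy =>
    obtain ⟨β, a, h, rfl⟩ := hx
    exact key β a h y hy
  | inv_mul_cancel x hx y _ hy =>
    obtain ⟨β, a, h, rfl⟩ := hx
    rw [xg_inv]
    refine key β (-a) ?_ y hy
    rcases h with ⟨h1, h2⟩ | ⟨h1, h2⟩
    · exact Or.inl ⟨h1, bd_neg h2⟩
    · exact Or.inr ⟨h1, bd_neg h2⟩

theorem gen_H (hC : SimplyLaced C) (H : Subgroup (grp C K)) (h1 : Iw hC K ≤ H)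
    (h2 : ∀ i, wi hC K i ∈ H) : ∀ (n : ℕ) (β : Rt C), β.Pos → ht β ≤ n → ∀ a ∈ Bd K 0,
    xg hC β.neg a ∈ H := by
  intro n
  induction n with
  | zero =>
    intro β hβ hn
    have := (pos_iff hC β).mp hβ
    push_cast at hn
    omega
  | succ n ih =>
    intro β hβ hn a ha
    rcases (hRD r C hC).1 β hβ with ⟨i, rfl⟩ | ⟨i, h3, h4⟩
    · have e := (relC r C hC K (hC.sr i) 1 one_ne_zero a).1
      rw [one_pow, inv_one, one_mul] at e
      rw [← e]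
      exact mul_mem (mul_mem (h2 i) (h1 (Subgroup.subset_closure
        ⟨hC.sr i, a, Or.inl ⟨sr_pos hC i, ha⟩, rfl⟩))) (inv_mem (h2 i))
    · have hr : ip C (β.1 - al i) (β.1 - al i) = 2 := by
        have := hC.ip_sub_self (β := β) (γ := hC.sr i) (by rw [hC.sr_val]; exact h3)
        exact this
      have hδ : Rt.Pos (⟨_, hr⟩ : Rt C) := h4
      have hht : ht (⟨_, hr⟩ : Rt C) = ht β - 1 := by
        simp only [ht, Pi.sub_apply, Finset.sum_sub_distrib]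
        congr 1
        simp [al]
      have hx := ih ⟨_, hr⟩ hδ (by push_cast at hn; omega)
        (((eps C (hC.sr i).1 (Rt.neg (⟨_, hr⟩ : Rt C)).1 : ℤ) : FF K) * a) (int_mul_Bd _ ha)
      have e := (relC r C hC K (hC.sr i) 1 one_ne_zero
        (((eps C (hC.sr i).1 (Rt.neg (⟨_, hr⟩ : Rt C)).1 : ℤ) : FF K) * a)).2.2.1
        (Rt.neg ⟨_, hr⟩) β.neg (by
          rw [Rt.neg_val, ip_neg_right, hC.sr_val, ip_sub_right, hC.ip_comm (al i) β.1, h3]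
          have := (hC.sr i).2
          rw [hC.sr_val] at this
          rw [this]
          norm_num) (by
          rw [Rt.neg_val, Rt.neg_val, hC.sr_val]
          show -β.1 = -(β.1 - al i) - al i
          abel)
      have e2 : (1 : FF K)⁻¹ * ((eps C (hC.sr i).1 (Rt.neg (⟨_, hr⟩ : Rt C)).1 : ℤ) : FF K) *
          (((eps C (hC.sr i).1 (Rt.neg (⟨_, hr⟩ : Rt C)).1 : ℤ) : FF K) * a) = a := by
        have h5 := eps_mul_self (C := C) (hC.sr i).1 (Rt.neg (⟨_, hr⟩ : Rt C)).1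
        rw [inv_one, one_mul, ← mul_assoc, ← Int.cast_mul, h5, Int.cast_one, one_mul]
      rw [e2] at e
      rw [← e]
      exact mul_mem (mul_mem (h2 i) hx) (inv_mem (h2 i))

end

/-- VIS. -/
theorem vis : VisStmt := by
  intro r C hC K _
  refine ⟨fun i v hv a ha => ⟨xx_Vi hC (Or.inl rfl) ha v hv, xx_Vi hC (Or.inr rfl) ha v hv⟩,
    fun i v hv => ⟨ww_Vi hC (Or.inl rfl) v hv, ?_⟩,
    fun i => ⟨Vi_le hC i, Ii_le hC i, Iw_le hC, Iw_fac hC i⟩, ?_,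
    fun i u hu a => xx_Un hC (Or.inr rfl) a u hu, fun i u hu => ?_⟩
  · have := ww_Vi hC (i := i) (Or.inr rfl) v hv
    rwa [← wi_inv hC i, inv_inv] at this
  · intro H h1 h2 β a ha
    rcases (hRS r C hC).1 β with h | h
    · exact h1 (Subgroup.subset_closure ⟨β, a, Or.inl ⟨h, ha⟩, rfl⟩)
    · have hnn : β = β.neg.neg := Subtype.ext (by rw [Rt.neg_val, Rt.neg_val, neg_neg])
      rw [hnn]
      exact gen_H hC H h1 h2 (ht β.neg).toNat β.neg h (Int.self_le_toNat _) a ha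
  · have := ww_Un hC (i := i) (Or.inr rfl) u hu
    rwa [← wi_inv hC i, inv_inv] at this

end Pool.Agent.TMP.H99
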